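import Pool.Agent.TH229.PG.HopfDefs

/-!
The inverse function of `Y x`, the map of the phase cylinder and the invariance of the area.
-/

set_option autoImplicit false

namespace Pool.Agent.TH44.PGH

open Real Filter Topology MeasureTheory Set
open scoped ENNReal
open Pool.Agent.TH229.PG (Leaf HopfData HopfBounds mm)

/-- inverse of `Y x` on `(x, x + T)` -/
noncomputable def Xf (T : ℝ) (Y : ℝ → ℝ → ℝ) (x y : ℝ) : ℝ :=
  Classical.epsilon fun z => x < z ∧ z < x + T ∧ Y x z = y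

/-- the map of the phase cylinder -/
noncomputable def Fm (T : ℝ) (Y : ℝ → ℝ → ℝ) (p : ℝ × ℝ) : ℝ × ℝ :=
  (Xf T Y p.1 p.2, - Y (Xf T Y p.1 p.2) p.1)

/-- the weight -/
noncomputable def kap (T : ℝ) (Y a : ℝ → ℝ → ℝ) (p : ℝ × ℝ) : ℝ :=
  a (Xf T Y p.1 p.2) p.1 / a p.1 (Xf T Y p.1 p.2)

/-- area on the fundamental strip of the cylinder -/
noncomputable def muT (T : ℝ) : Measure (ℝ × ℝ) := (volume.restrict (Ioc 0 T)).prod volume

/-- area on the fundamental domain of the pairs -/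
noncomputable def nuT (T : ℝ) : Measure (ℝ × ℝ) :=
  (volume.restrict (Ioc 0 T)).prod (volume.restrict (Ioo 0 T))

section
variable {T : ℝ} {Y a P : ℝ → ℝ → ℝ} (H : HopfData T Y a P)
include H

theorem gap_ok {x z : ℝ} (h1 : x < z) (h2 : z < x + T) : 0 < |z - x| ∧ |z - x| < T := by
  have := H.Tpos
  rw [abs_of_pos (by linarith)]
  constructor <;> linarith

theorem gap_ok' {x z : ℝ} (h1 : x < z) (h2 : z < x + T) : 0 < |x - z| ∧ |x - z| < T := by
  rw [abs_sub_comm]; exact gap_ok H h1 h2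

theorem dY2' {x z : ℝ} (h1 : x < z) (h2 : z < x + T) :
    HasDerivAt (fun w => Y x w) (-a x z) z :=
  H.dY2 x z (gap_ok H h1 h2).1 (gap_ok H h1 h2).2

theorem apos' {x z : ℝ} (h1 : x < z) (h2 : z < x + T) : 0 < a x z :=
  H.apos x z (gap_ok H h1 h2).1 (gap_ok H h1 h2).2

theorem apos'' {x z : ℝ} (h1 : x < z) (h2 : z < x + T) : 0 < a z x :=
  H.apos z x (gap_ok' H h1 h2).1 (gap_ok' H h1 h2).2

theorem Y_anti (x : ℝ) : StrictAntiOn (fun z => Y x z) (Ioo x (x + T)) := by
  refine strictAntiOn_of_deriv_neg (convex_Ioo _ _) ?_ ?_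
  · intro z hz
    exact (dY2' H hz.1 hz.2).continuousAt.continuousWithinAt
  · intro z hz
    rw [interior_Ioo] at hz
    rw [(dY2' H hz.1 hz.2).deriv]
    linarith [apos' H hz.1 hz.2]

theorem X_exists (x y : ℝ) : ∃ z, x < z ∧ z < x + T ∧ Y x z = y := by
  have hT := H.Tpos
  have h1 : ∀ᶠ z in 𝓝[>] x, y ≤ Y x z ∧ z ∈ Ioo x (x + T / 2) :=
    ((H.limr x).eventually_ge_atTop y).and (Ioo_mem_nhdsGT (by linarith))
  obtain ⟨z1, hz1, hz1'⟩ := h1.exists
  have h2 : ∀ᶠ z in 𝓝[<] (x + T), Y x z ≤ y ∧ z ∈ Ioo (x + T / 2) (x + T) :=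
    ((H.liml x).eventually_le_atBot y).and (Ioo_mem_nhdsLT (by linarith))
  obtain ⟨z2, hz2, hz2'⟩ := h2.exists
  have h3 : z1 ≤ z2 := by linarith [hz1'.2, hz2'.1]
  have hc : ContinuousOn (fun z => Y x z) (Icc z1 z2) := by
    intro z hz
    exact (dY2' H (by linarith [hz.1, hz1'.1]) (by linarith [hz.2, hz2'.2])).continuousAt.continuousWithinAt
  obtain ⟨z, hz, hzy⟩ := intermediate_value_Icc' h3 hc (show y ∈ Icc (Y x z2) (Y x z1) from ⟨hz2, hz1⟩)
  exact ⟨z, by linarith [hz.1, hz1'.1], by linarith [hz.2, hz2'.2], hzy⟩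

theorem X_spec (x y : ℝ) : x < Xf T Y x y ∧ Xf T Y x y < x + T ∧ Y x (Xf T Y x y) = y :=
  Classical.epsilon_spec (X_exists H x y)

theorem X_eq {x z : ℝ} (h1 : x < z) (h2 : z < x + T) : Xf T Y x (Y x z) = z := by
  obtain ⟨h3, h4, h5⟩ := X_spec H x (Y x z)
  exact (Y_anti H x).injOn ⟨h3, h4⟩ ⟨h1, h2⟩ h5

theorem X_per (x y : ℝ) : Xf T Y (x + T) y = Xf T Y x y + T := by
  obtain ⟨h3, h4, h5⟩ := X_spec H x y
  have h6 : Y (x + T) (Xf T Y x y + T) = y := by rw [H.perY1, H.perY2, h5]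
  have := X_eq H (x := x + T) (z := Xf T Y x y + T) (by linarith) (by linarith)
  rwa [h6] at this

theorem X_lt_iff (x y c : ℝ) :
    Xf T Y x y < c ↔ x + T ≤ c ∨ (x < c ∧ c < x + T ∧ Y x c < y) := by
  obtain ⟨h3, h4, h5⟩ := X_spec H x y
  constructor
  · intro h
    rcases le_or_gt (x + T) c with hc | hc
    · exact Or.inl hc
    · refine Or.inr ⟨by linarith, hc, ?_⟩
      have := (Y_anti H x) ⟨h3, h4⟩ ⟨by linarith, hc⟩ h
      simp only at this
      rwa [h5] at this
  · rintro (h | ⟨h6, h7, h8⟩)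
    · linarith
    · by_contra hn
      rw [not_lt] at hn
      have := (Y_anti H x).antitoneOn ⟨h6, h7⟩ ⟨h3, h4⟩ hn
      rw [h5] at this
      linarith

theorem measX : Measurable (fun p : ℝ × ℝ => Xf T Y p.1 p.2) := by
  refine measurable_of_Iio fun c => ?_
  have e : (fun p : ℝ × ℝ => Xf T Y p.1 p.2) ⁻¹' Iio c =
      {p : ℝ × ℝ | p.1 + T ≤ c} ∪ ({p : ℝ × ℝ | p.1 < c} ∩ ({p : ℝ × ℝ | c < p.1 + T} ∩
        {p : ℝ × ℝ | Y p.1 c < p.2})) := by
    ext p
    simp only [mem_preimage, mem_Iio, mem_union, Set.mem_ofPred_eq, mem_inter_iff]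
    exact X_lt_iff H p.1 p.2 c
  rw [e]
  have hY : Measurable (fun p : ℝ × ℝ => Y p.1 c) :=
    H.measY.comp (measurable_fst.prodMk measurable_const)
  refine (measurableSet_le (by fun_prop) measurable_const).union
    ((measurableSet_lt measurable_fst measurable_const).inter
      ((measurableSet_lt measurable_const (by fun_prop)).inter (measurableSet_lt hY measurable_snd)))

theorem measF : Measurable (Fm T Y) := by
  refine (measX H).prodMk ?_
  exact (H.measY.comp ((measX H).prodMk measurable_fst)).neg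

theorem meask : Measurable (kap T Y a) :=
  (H.measa.comp ((measX H).prodMk measurable_fst)).div
    (H.measa.comp (measurable_fst.prodMk (measX H)))

theorem F_per (x y : ℝ) : Fm T Y (x + T, y) = ((Fm T Y (x, y)).1 + T, (Fm T Y (x, y)).2) := by
  unfold Fm
  simp only [X_per H, H.perY1, H.perY2]

theorem k_per (x y : ℝ) : kap T Y a (x + T, y) = kap T Y a (x, y) := by
  unfold kap
  simp only [X_per H, H.pera1, H.pera2]

theorem k_pos (p : ℝ × ℝ) : 0 < kap T Y a p := by
  obtain ⟨h3, h4, h5⟩ := X_spec H p.1 p.2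
  exact div_pos (apos'' H h3 h4) (apos' H h3 h4)

theorem F_pair {x z : ℝ} (h1 : x < z) (h2 : z < x + T) : Fm T Y (x, Y x z) = (z, - Y z x) := by
  unfold Fm
  simp only [X_eq H h1 h2]

theorem k_pair {x z : ℝ} (h1 : x < z) (h2 : z < x + T) :
    kap T Y a (x, Y x z) = a z x / a x z := by
  unfold kap
  simp only [X_eq H h1 h2]

omit H in
theorem lint_shift (f : ℝ → ℝ≥0∞) (hT : 0 < T) (hf : Function.Periodic f T) (c : ℝ) :
    ∫⁻ x in Ioc 0 T, f (x + c) = ∫⁻ x in Ioc 0 T, f x := by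
  have h1 : ∫⁻ x in Ioc 0 T, f (x + c) = ∫⁻ x in Ioc c (c + T), f x := by
    have h := (measurePreserving_add_right volume c).setLIntegral_comp_preimage_emb
      (measurableEmbedding_addRight c) f (Ioc c (c + T))
    rw [← h]
    congr 2
    ext x
    simp only [mem_preimage, mem_Ioc]
    constructor
    · rintro ⟨h1, h2⟩; constructor <;> linarith
    · rintro ⟨h1, h2⟩; constructor <;> linarith
  rw [h1]
  have : VAddInvariantMeasure (AddSubgroup.zmultiples T) ℝ volume :=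
    ⟨fun c s _ => measure_preimage_add _ _ _⟩
  have h2 := (isAddFundamentalDomain_Ioc hT c (μ := volume)).setLIntegral_eq
    (isAddFundamentalDomain_Ioc hT 0 (μ := volume)) f hf.map_vadd_zmultiples
  rw [h2]
  simp

theorem cov1 (x : ℝ) (g : ℝ → ℝ≥0∞) :
    ∫⁻ z in Ioo x (x + T), ENNReal.ofReal (a x z) * g (Y x z) = ∫⁻ y, g y := by
  have himg : (fun z => Y x z) '' Ioo x (x + T) = univ := by
    rw [eq_univ_iff_forall]
    intro y
    obtain ⟨z, h1, h2, h3⟩ := X_exists H x y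
    exact ⟨z, ⟨h1, h2⟩, h3⟩
  have h := lintegral_image_eq_lintegral_abs_deriv_mul (s := Ioo x (x + T)) measurableSet_Ioo
    (f := fun z => Y x z) (f' := fun z => -a x z)
    (fun z hz => (dY2' H hz.1 hz.2).hasDerivWithinAt) (Y_anti H x).injOn g
  rw [himg, setLIntegral_univ] at h
  rw [h]
  refine setLIntegral_congr_fun measurableSet_Ioo ?_
  intro z hz
  simp only [abs_neg]
  rw [abs_of_pos (apos' H hz.1 hz.2)]

theorem cov2 (x : ℝ) (g : ℝ → ℝ≥0∞) :
    ∫⁻ d in Ioo 0 T, ENNReal.ofReal (a x (x + d)) * g (Y x (x + d)) = ∫⁻ y, g y := by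
  rw [← cov1 H x g]
  have h := (measurePreserving_add_left volume x).setLIntegral_comp_preimage_emb
    (measurableEmbedding_addLeft x) (fun z => ENNReal.ofReal (a x z) * g (Y x z)) (Ioo x (x + T))
  rw [← h]
  congr 2
  ext z
  simp only [mem_preimage, mem_Ioo]
  constructor
  · rintro ⟨h1, h2⟩; constructor <;> linarith
  · rintro ⟨h1, h2⟩; constructor <;> linarith

theorem cov3 (x : ℝ) (g : ℝ → ℝ≥0∞) :
    ∫⁻ d in Ioo 0 T, ENNReal.ofReal (a x (x - d)) * g (Y x (x - d)) = ∫⁻ y, g y := by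
  rw [← cov1 H x g]
  have hmp : MeasurePreserving (fun d : ℝ => (x + T) - d) volume volume :=
    Measure.measurePreserving_sub_left volume (x + T)
  have hme : MeasurableEmbedding (fun d : ℝ => (x + T) - d) :=
    measurableEmbedding_subLeft (x + T)
  have h := hmp.setLIntegral_comp_preimage_emb hme
    (fun z => ENNReal.ofReal (a x z) * g (Y x z)) (Ioo x (x + T))
  rw [← h]
  have e : (fun d : ℝ => (x + T) - d) ⁻¹' Ioo x (x + T) = Ioo 0 T := by
    ext z
    simp only [mem_preimage, mem_Ioo]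
    constructor
    · rintro ⟨h1, h2⟩; constructor <;> linarith
    · rintro ⟨h1, h2⟩; constructor <;> linarith
  rw [e]
  refine setLIntegral_congr_fun measurableSet_Ioo ?_
  intro z hz
  have e1 : x + T - z = x - z + T := by ring
  simp only [e1, H.perY2, H.pera2]

/-- change of coordinates from the cylinder to pairs -/
theorem conv (f : ℝ × ℝ → ℝ≥0∞) (hf : Measurable f) :
    ∫⁻ p, f p ∂(muT T) =
      ∫⁻ p : ℝ × ℝ, ENNReal.ofReal (a p.1 (p.1 + p.2)) * f (p.1, Y p.1 (p.1 + p.2)) ∂(nuT T) := by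
  have hm : Measurable (fun p : ℝ × ℝ =>
      ENNReal.ofReal (a p.1 (p.1 + p.2)) * f (p.1, Y p.1 (p.1 + p.2))) := by
    have h1 : Measurable (fun p : ℝ × ℝ => (p.1, p.1 + p.2)) :=
      measurable_fst.prodMk (by fun_prop)
    exact ((H.measa.comp h1).ennreal_ofReal).mul
      (hf.comp (measurable_fst.prodMk (H.measY.comp h1)))
  unfold muT nuT
  rw [lintegral_prod _ hf.aemeasurable, lintegral_prod _ hm.aemeasurable]
  refine lintegral_congr fun x => ?_
  exact (cov2 H x (fun y => f (x, y))).symm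

/-- invariance of the area -/
theorem inv (f : ℝ × ℝ → ℝ≥0∞) (hf : Measurable f) (hper : ∀ x y, f (x + T, y) = f (x, y)) :
    ∫⁻ p, ENNReal.ofReal (kap T Y a p) * f (Fm T Y p) ∂(muT T) = ∫⁻ p, f p ∂(muT T) := by
  have hT := H.Tpos
  have hm0 : Measurable (fun p : ℝ × ℝ => ENNReal.ofReal (kap T Y a p) * f (Fm T Y p)) :=
    ((meask H).ennreal_ofReal).mul (hf.comp (measF H))
  rw [conv H (fun p : ℝ × ℝ => ENNReal.ofReal (kap T Y a p) * f (Fm T Y p)) hm0]
  have hm3 : Measurable (fun p : ℝ × ℝ => ENNReal.ofReal (a (p.1 + p.2) p.1) *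
      f (p.1 + p.2, - Y (p.1 + p.2) p.1)) := by
    have h1 : Measurable (fun p : ℝ × ℝ => (p.1 + p.2, p.1)) :=
      (by fun_prop : Measurable (fun p : ℝ × ℝ => p.1 + p.2)).prodMk measurable_fst
    exact ((H.measa.comp h1).ennreal_ofReal).mul
      (hf.comp ((by fun_prop : Measurable (fun p : ℝ × ℝ => p.1 + p.2)).prodMk
        (H.measY.comp h1).neg))
  have hm4 : Measurable (fun p : ℝ × ℝ => ENNReal.ofReal (a p.1 (p.1 - p.2)) *
      f (p.1, - Y p.1 (p.1 - p.2))) := by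
    have h1 : Measurable (fun p : ℝ × ℝ => (p.1, p.1 - p.2)) :=
      measurable_fst.prodMk (by fun_prop)
    exact ((H.measa.comp h1).ennreal_ofReal).mul
      (hf.comp (measurable_fst.prodMk (H.measY.comp h1).neg))
  have s1 : ∫⁻ p : ℝ × ℝ, ENNReal.ofReal (a p.1 (p.1 + p.2)) *
      (ENNReal.ofReal (kap T Y a (p.1, Y p.1 (p.1 + p.2))) *
        f (Fm T Y (p.1, Y p.1 (p.1 + p.2)))) ∂(nuT T) =
      ∫⁻ p : ℝ × ℝ, ENNReal.ofReal (a (p.1 + p.2) p.1) *
        f (p.1 + p.2, - Y (p.1 + p.2) p.1) ∂(nuT T) := by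
    have e : nuT T = (volume.prod volume).restrict (Ioc 0 T ×ˢ Ioo 0 T) := by
      unfold nuT; rw [Measure.prod_restrict]
    rw [e]
    refine setLIntegral_congr_fun (measurableSet_Ioc.prod measurableSet_Ioo) ?_
    rintro ⟨x, d⟩ ⟨_, hd⟩
    simp only at hd ⊢
    have h1 : x < x + d := by linarith [hd.1]
    have h2 : x + d < x + T := by linarith [hd.2]
    rw [F_pair H h1 h2, k_pair H h1 h2, ← mul_assoc, ← ENNReal.ofReal_mul (apos' H h1 h2).le]
    congr 2
    have := (apos' H h1 h2).ne'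
    field_simp
  rw [s1]
  unfold nuT
  rw [lintegral_prod_symm _ hm3.aemeasurable]
  have s2 : ∀ d : ℝ, ∫⁻ x in Ioc 0 T, ENNReal.ofReal (a (x + d) x) * f (x + d, - Y (x + d) x) =
      ∫⁻ x in Ioc 0 T, ENNReal.ofReal (a x (x - d)) * f (x, - Y x (x - d)) := by
    intro d
    have h := lint_shift (fun x => ENNReal.ofReal (a x (x - d)) * f (x, - Y x (x - d))) hT (by
      intro x
      have e1 : x + T - d = x - d + T := by ring
      simp only [e1, H.pera1, H.pera2, H.perY1, H.perY2, hper]) d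
    rw [← h]
    refine lintegral_congr fun x => ?_
    have e2 : x + d - d = x := by ring
    rw [e2]
  simp only [s2]
  have h3 := lintegral_prod_symm (μ := volume.restrict (Ioc 0 T))
    (ν := volume.restrict (Ioo 0 T)) (fun p : ℝ × ℝ => ENNReal.ofReal (a p.1 (p.1 - p.2)) *
      f (p.1, - Y p.1 (p.1 - p.2))) hm4.aemeasurable
  simp only at h3
  rw [← h3, lintegral_prod _ hm4.aemeasurable]
  unfold muT
  rw [lintegral_prod _ hf.aemeasurable]
  refine lintegral_congr fun x => ?_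
  simp only
  rw [cov3 H x (fun y => f (x, -y))]
  have hg : Measurable (fun y => f (x, y)) := hf.comp (measurable_const.prodMk measurable_id)
  exact (Measure.measurePreserving_neg volume).lintegral_comp hg

end

end Pool.Agent.TH44.PGH
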