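import Pool.Agent.TH44.PGH.Orbit
import Pool.Agent.TH44.PGH.Inv

/-!
Integration of the orbit inequality.
-/

set_option autoImplicit false

namespace Pool.Agent.TH44.PGH

open Real Filter Topology MeasureTheory Set
open scoped ENNReal
open Pool.Agent.TH229.PG (Leaf HopfData HopfBounds mm)

/-- measurable, periodic, integrable functions on the cylinder -/
structure Good (T : ℝ) (h : ℝ × ℝ → ℝ) : Prop where
  meas : Measurable h
  per : ∀ x y, h (x + T, y) = h (x, y)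
  int : Integrable h (muT T)

/-- product of the weights along the orbit -/
noncomputable def rho (T : ℝ) (Y a : ℝ → ℝ → ℝ) (n : ℕ) (p : ℝ × ℝ) : ℝ :=
  ∏ i ∈ Finset.range n, kap T Y a ((Fm T Y)^[i] p)

/-- weighted composition with the iterate -/
noncomputable def Ln (T : ℝ) (Y a : ℝ → ℝ → ℝ) (h : ℝ × ℝ → ℝ) (n : ℕ) (p : ℝ × ℝ) : ℝ :=
  rho T Y a n p * h ((Fm T Y)^[n] p)

theorem rho_succ (T : ℝ) (Y a : ℝ → ℝ → ℝ) (n : ℕ) (p : ℝ × ℝ) :
    rho T Y a (n + 1) p = rho T Y a n p * kap T Y a ((Fm T Y)^[n] p) := by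
  unfold rho; rw [Finset.prod_range_succ]

theorem rho_succ' (T : ℝ) (Y a : ℝ → ℝ → ℝ) (n : ℕ) (p : ℝ × ℝ) :
    rho T Y a (n + 1) p = kap T Y a p * rho T Y a n (Fm T Y p) := by
  unfold rho
  rw [Finset.prod_range_succ', mul_comm]
  simp only [Function.iterate_succ_apply, Function.iterate_zero, id_eq]

section
variable {T : ℝ} {Y a P : ℝ → ℝ → ℝ} (H : HopfData T Y a P)
include H

theorem rho_pos (n : ℕ) (p : ℝ × ℝ) : 0 < rho T Y a n p :=
  Finset.prod_pos fun _ _ => k_pos H _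

theorem Good.L {h : ℝ × ℝ → ℝ} (G : Good T h) :
    Good T (fun p => kap T Y a p * h (Fm T Y p)) ∧
      ∫ p, kap T Y a p * h (Fm T Y p) ∂(muT T) = ∫ p, h p ∂(muT T) := by
  have hm : Measurable (fun p => kap T Y a p * h (Fm T Y p)) :=
    (meask H).mul (G.meas.comp (measF H))
  have hi : Integrable (fun p => kap T Y a p * h (Fm T Y p)) (muT T) := by
    refine ⟨hm.aestronglyMeasurable, ?_⟩
    have h1 := G.int.2
    unfold HasFiniteIntegral at h1 ⊢
    have h2 := inv H (fun p => ‖h p‖ₑ) G.meas.enorm (fun x y => by simp only [G.per])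
    rw [← h2] at h1
    refine lt_of_eq_of_lt ?_ h1
    refine lintegral_congr fun p => ?_
    rw [enorm_mul, Real.enorm_of_nonneg (k_pos H p).le]
  refine ⟨⟨hm, ?_, hi⟩, ?_⟩
  · intro x y
    rw [k_per H, F_per H, G.per]
  · rw [integral_eq_lintegral_pos_part_sub_lintegral_neg_part hi,
      integral_eq_lintegral_pos_part_sub_lintegral_neg_part G.int]
    have e1 := inv H (fun p => ENNReal.ofReal (h p)) (G.meas.ennreal_ofReal)
      (fun x y => by simp only [G.per])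
    have e2 := inv H (fun p => ENNReal.ofReal (- h p)) (G.meas.neg.ennreal_ofReal)
      (fun x y => by simp only [G.per])
    have e3 : ∫⁻ p, ENNReal.ofReal (kap T Y a p * h (Fm T Y p)) ∂(muT T) =
        ∫⁻ p, ENNReal.ofReal (kap T Y a p) * ENNReal.ofReal (h (Fm T Y p)) ∂(muT T) :=
      lintegral_congr fun p => by rw [ENNReal.ofReal_mul (k_pos H p).le]
    have e4 : ∫⁻ p, ENNReal.ofReal (-(kap T Y a p * h (Fm T Y p))) ∂(muT T) =
        ∫⁻ p, ENNReal.ofReal (kap T Y a p) * ENNReal.ofReal (- h (Fm T Y p)) ∂(muT T) :=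
      lintegral_congr fun p => by rw [← ENNReal.ofReal_mul (k_pos H p).le, mul_neg]
    rw [e3, e4, e1, e2]

theorem Good.iter {h : ℝ × ℝ → ℝ} (G : Good T h) (n : ℕ) :
    Good T (Ln T Y a h n) ∧ ∫ p, Ln T Y a h n p ∂(muT T) = ∫ p, h p ∂(muT T) := by
  induction n with
  | zero =>
    have e : Ln T Y a h 0 = h := by
      funext p; unfold Ln rho; simp
    rw [e]
    exact ⟨G, rfl⟩
  | succ n ih =>
    have e : Ln T Y a h (n + 1) = fun p => kap T Y a p * Ln T Y a h n (Fm T Y p) := by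
      funext p
      unfold Ln
      rw [rho_succ', Function.iterate_succ_apply, mul_assoc]
    rw [e]
    obtain ⟨h1, h2⟩ := Good.L H ih.1
    exact ⟨h1, h2.trans ih.2⟩

theorem orbit_pt (Φ : ℝ × ℝ → ℝ) (hΦ : ∀ p, 0 ≤ Φ p) (p : ℝ × ℝ) (M : ℕ) :
    ∑ n ∈ Finset.range M, 2 * Ln T Y a (fun q => a (Xf T Y q.1 q.2) q.1 * Φ q * Φ (Fm T Y q))
        (n + 1) p ≤
      ∑ n ∈ Finset.range (M + 1), Ln T Y a (fun q => P q.1 (Xf T Y q.1 q.2) * Φ q ^ 2) (n + 1) p
      + ∑ n ∈ Finset.range (M + 1), Ln T Y a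
          (fun q => kap T Y a q * P (Xf T Y q.1 q.2) q.1 * Φ (Fm T Y q) ^ 2) n p := by
  obtain ⟨x, y⟩ := p
  obtain ⟨hX1, hX2, hX3⟩ := X_spec H x y
  obtain ⟨τ, hl, hτ, hi⟩ := H.cov x (Xf T Y x y) hX1 hX2
  have hp : (x, y) = (x, Y x (τ x)) := by rw [hτ, hX3]
  rw [hp]
  set p : ℝ × ℝ := (x, Y x (τ x)) with hpd
  have hgap : ∀ n, τ^[n] x < τ^[n + 1] x ∧ τ^[n + 1] x < τ^[n] x + T := by
    intro n
    rw [Function.iterate_succ_apply']
    exact ⟨hl.above _, hl.below _⟩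
  have hit : ∀ n, (Fm T Y)^[n] p = (τ^[n] x, Y (τ^[n] x) (τ^[n + 1] x)) := by
    intro n
    induction n with
    | zero => rfl
    | succ n ih =>
      rw [Function.iterate_succ_apply', ih, F_pair H (hgap n).1 (hgap n).2]
      have h1 := hi (τ^[n] x)
      rw [← Function.iterate_succ_apply' τ n x, ← Function.iterate_succ_apply' τ (n + 1) x] at h1
      rw [h1]
  have hXn : ∀ n, Xf T Y ((Fm T Y)^[n] p).1 ((Fm T Y)^[n] p).2 = τ^[n + 1] x := by
    intro n
    rw [hit n]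
    exact X_eq H (hgap n).1 (hgap n).2
  have h1n : ∀ n, ((Fm T Y)^[n] p).1 = τ^[n] x := fun n => by rw [hit n]
  have hkn : ∀ n, kap T Y a ((Fm T Y)^[n] p) =
      a (τ^[n + 1] x) (τ^[n] x) / a (τ^[n] x) (τ^[n + 1] x) := by
    intro n
    rw [hit n]
    exact k_pair H (hgap n).1 (hgap n).2
  set u : ℕ → ℝ := fun n => if n = 0 ∨ n = M + 2 then 0 else
    rho T Y a n p * Φ ((Fm T Y)^[n] p) ^ 2 with hud
  have hu0 : u 0 = 0 := by simp [hud]
  have huN : u (M + 2) = 0 := by simp [hud]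
  have hu : ∀ n, 0 ≤ u n := by
    intro n
    simp only [hud]
    split_ifs
    · exact le_rfl
    · have := rho_pos H n p; positivity
  have hus : ∀ n, n < M + 1 → u (n + 1) = rho T Y a (n + 1) p * Φ ((Fm T Y)^[n + 1] p) ^ 2 := by
    intro n hn
    have : ¬ (n + 1 = 0 ∨ n + 1 = M + 2) := by omega
    simp only [hud, if_neg this]
  have h := orbit_lim H hl hi x (M + 2) u hu hu0 huN
  have hL : ∑ n ∈ Finset.range (M + 2), 2 * Real.sqrt (a (τ^[n] x) (τ^[n + 1] x) *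
        a (τ^[n + 1] x) (τ^[n] x) * (u n * u (n + 1))) =
      ∑ n ∈ Finset.range M, 2 * Ln T Y a
        (fun q => a (Xf T Y q.1 q.2) q.1 * Φ q * Φ (Fm T Y q)) (n + 1) p := by
    rw [Finset.sum_range_succ, Finset.sum_range_succ', hu0, huN]
    simp only [zero_mul, mul_zero, Real.sqrt_zero, add_zero]
    refine Finset.sum_congr rfl fun n hn => ?_
    have hn' := Finset.mem_range.mp hn
    rw [hus n (by omega), hus (n + 1) (by omega)]
    unfold Ln
    simp only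
    rw [hXn, h1n, rho_succ T Y a (n + 1) p, hkn, ← Function.iterate_succ_apply' (Fm T Y) (n + 1) p]
    have ha := apos' H (hgap (n + 1)).1 (hgap (n + 1)).2
    have hb := apos'' H (hgap (n + 1)).1 (hgap (n + 1)).2
    have hr := rho_pos H (n + 1) p
    have hf1 := hΦ ((Fm T Y)^[n + 1] p)
    have hf2 := hΦ ((Fm T Y)^[n + 1 + 1] p)
    congr 1
    have e : a (τ^[n + 1] x) (τ^[n + 1 + 1] x) * a (τ^[n + 1 + 1] x) (τ^[n + 1] x) *
        (rho T Y a (n + 1) p * Φ ((Fm T Y)^[n + 1] p) ^ 2 * (rho T Y a (n + 1) p *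
        (a (τ^[n + 1 + 1] x) (τ^[n + 1] x) / a (τ^[n + 1] x) (τ^[n + 1 + 1] x)) *
        Φ ((Fm T Y)^[n + 1 + 1] p) ^ 2)) =
        (rho T Y a (n + 1) p * (a (τ^[n + 1 + 1] x) (τ^[n + 1] x) * Φ ((Fm T Y)^[n + 1] p) *
          Φ ((Fm T Y)^[n + 1 + 1] p))) ^ 2 := by
      field_simp
    rw [e, Real.sqrt_sq (by positivity)]
  have hR : ∑ n ∈ Finset.range (M + 2), (P (τ^[n] x) (τ^[n + 1] x) * u n +
        P (τ^[n + 1] x) (τ^[n] x) * u (n + 1)) =
      ∑ n ∈ Finset.range (M + 1), Ln T Y a (fun q => P q.1 (Xf T Y q.1 q.2) * Φ q ^ 2) (n + 1) p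
      + ∑ n ∈ Finset.range (M + 1), Ln T Y a
          (fun q => kap T Y a q * P (Xf T Y q.1 q.2) q.1 * Φ (Fm T Y q) ^ 2) n p := by
    rw [Finset.sum_add_distrib, Finset.sum_range_succ' (fun n => P (τ^[n] x) (τ^[n + 1] x) * u n),
      Finset.sum_range_succ (fun n => P (τ^[n + 1] x) (τ^[n] x) * u (n + 1)), hu0, huN]
    simp only [mul_zero, add_zero]
    congr 1
    · refine Finset.sum_congr rfl fun n hn => ?_
      have hn' := Finset.mem_range.mp hn
      rw [hus n (by omega)]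
      unfold Ln
      simp only
      rw [hXn, h1n]
      ring
    · refine Finset.sum_congr rfl fun n hn => ?_
      have hn' := Finset.mem_range.mp hn
      rw [hus n (by omega)]
      unfold Ln
      simp only
      rw [hXn, h1n, rho_succ T Y a n p, ← Function.iterate_succ_apply' (Fm T Y) n p]
      ring
  rw [hL, hR] at h
  exact h

/-- the averaged inequality on the cylinder -/
theorem avg {Φ : ℝ × ℝ → ℝ} (hΦ : ∀ p, 0 ≤ Φ p)
    (G1 : Good T (fun q => P q.1 (Xf T Y q.1 q.2) * Φ q ^ 2))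
    (G2 : Good T (fun q => kap T Y a q * P (Xf T Y q.1 q.2) q.1 * Φ (Fm T Y q) ^ 2))
    (G3 : Good T (fun q => a (Xf T Y q.1 q.2) q.1 * Φ q * Φ (Fm T Y q))) :
    2 * ∫ q : ℝ × ℝ, a (Xf T Y q.1 q.2) q.1 * Φ q * Φ (Fm T Y q) ∂(muT T) ≤
      ∫ q : ℝ × ℝ, P q.1 (Xf T Y q.1 q.2) * Φ q ^ 2 ∂(muT T) +
      ∫ q : ℝ × ℝ, kap T Y a q * P (Xf T Y q.1 q.2) q.1 * Φ (Fm T Y q) ^ 2 ∂(muT T) := by
  set h1 : ℝ × ℝ → ℝ := fun q => P q.1 (Xf T Y q.1 q.2) * Φ q ^ 2 with hh1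
  set h2 : ℝ × ℝ → ℝ := fun q => kap T Y a q * P (Xf T Y q.1 q.2) q.1 * Φ (Fm T Y q) ^ 2 with hh2
  set h3 : ℝ × ℝ → ℝ := fun q => a (Xf T Y q.1 q.2) q.1 * Φ q * Φ (Fm T Y q) with hh3
  set I1 := ∫ q, h1 q ∂(muT T) with hI1
  set I2 := ∫ q, h2 q ∂(muT T) with hI2
  set I3 := ∫ q, h3 q ∂(muT T) with hI3
  have key : ∀ M : ℕ, (M : ℝ) * (2 * I3) ≤ ((M : ℝ) + 1) * (I1 + I2) := by
    intro M
    have i1 : Integrable (fun p => ∑ n ∈ Finset.range (M + 1), Ln T Y a h1 (n + 1) p) (muT T) :=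
      integrable_finsetSum _ fun n _ => (Good.iter H G1 (n + 1)).1.int
    have i2 : Integrable (fun p => ∑ n ∈ Finset.range (M + 1), Ln T Y a h2 n p) (muT T) :=
      integrable_finsetSum _ fun n _ => (Good.iter H G2 n).1.int
    have i3 : Integrable (fun p => ∑ n ∈ Finset.range M, 2 * Ln T Y a h3 (n + 1) p) (muT T) :=
      integrable_finsetSum _ fun n _ => ((Good.iter H G3 (n + 1)).1.int).const_mul 2
    have e1 : ∫ p, ∑ n ∈ Finset.range (M + 1), Ln T Y a h1 (n + 1) p ∂(muT T) =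
        ((M : ℝ) + 1) * I1 := by
      rw [integral_finsetSum _ fun n _ => (Good.iter H G1 (n + 1)).1.int]
      have : ∀ n : ℕ, ∫ p, Ln T Y a h1 (n + 1) p ∂(muT T) = I1 :=
        fun n => (Good.iter H G1 (n + 1)).2
      simp only [this, Finset.sum_const, Finset.card_range, nsmul_eq_mul]
      push_cast; ring
    have e2 : ∫ p, ∑ n ∈ Finset.range (M + 1), Ln T Y a h2 n p ∂(muT T) =
        ((M : ℝ) + 1) * I2 := by
      rw [integral_finsetSum _ fun n _ => (Good.iter H G2 n).1.int]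
      have : ∀ n : ℕ, ∫ p, Ln T Y a h2 n p ∂(muT T) = I2 :=
        fun n => (Good.iter H G2 n).2
      simp only [this, Finset.sum_const, Finset.card_range, nsmul_eq_mul]
      push_cast; ring
    have e3 : ∫ p, ∑ n ∈ Finset.range M, 2 * Ln T Y a h3 (n + 1) p ∂(muT T) =
        (M : ℝ) * (2 * I3) := by
      rw [integral_finsetSum _ fun n _ => ((Good.iter H G3 (n + 1)).1.int).const_mul 2]
      have : ∀ n : ℕ, ∫ p, 2 * Ln T Y a h3 (n + 1) p ∂(muT T) = 2 * I3 := by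
        intro n
        rw [integral_const_mul, (Good.iter H G3 (n + 1)).2]
      simp only [this, Finset.sum_const, Finset.card_range, nsmul_eq_mul]
    rw [← e3, mul_add, ← e1, ← e2, ← integral_add i1 i2]
    exact integral_mono i3 (i1.add i2) fun p => orbit_pt H Φ hΦ p M
  by_contra hlt
  rw [not_le] at hlt
  have hpos : 0 < 2 * I3 - (I1 + I2) := sub_pos.mpr hlt
  obtain ⟨M, hM⟩ := exists_nat_gt ((I1 + I2) / (2 * I3 - (I1 + I2)))
  have k1 := key M
  have k2 : I1 + I2 < M * (2 * I3 - (I1 + I2)) := (div_lt_iff₀ hpos).mp hM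
  nlinarith

end

end Pool.Agent.TH44.PGH
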