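import Pool.Agent.TH229.PG.HopfDefs

/-!
The inequality along one orbit of a leaf, abstract form.
-/

set_option autoImplicit false

namespace Pool.Agent.TH44.PGH

open Real Filter Topology Set
open Pool.Agent.TH229.PG (Leaf HopfData HopfBounds mm)

theorem iter_cont {T : ℝ} {τ : ℝ → ℝ} (h : Leaf T τ) (n : ℕ) : Continuous (τ^[n]) :=
  h.cont.iterate n

theorem iter_mono {T : ℝ} {τ : ℝ → ℝ} (h : Leaf T τ) (n : ℕ) : StrictMono (τ^[n]) :=
  h.mono.iterate n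

theorem amgm {x y : ℝ} (hx : 0 ≤ x) (hy : 0 ≤ y) : 2 * Real.sqrt (x * y) ≤ x + y := by
  rw [Real.sqrt_mul hx]
  have h1 := Real.sq_sqrt hx
  have h2 := Real.sq_sqrt hy
  nlinarith [sq_nonneg (Real.sqrt x - Real.sqrt y)]

/-- telescoping algebra -/
theorem tele (N : ℕ) (p r A B ξ η u : ℕ → ℝ) (hξ : ∀ n, 0 < ξ n)
    (hA : ∀ n ∈ Finset.range N, 0 ≤ A n) (hB : ∀ n ∈ Finset.range N, 0 ≤ B n)
    (hu : ∀ n, 0 ≤ u n)
    (h1 : ∀ n, p n * ξ n - η n = A n * ξ (n + 1))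
    (h2 : ∀ n, r n * ξ (n + 1) + η (n + 1) = B n * ξ n)
    (hu0 : u 0 = 0) (huN : u N = 0) :
    ∑ n ∈ Finset.range N, 2 * Real.sqrt (A n * B n * (u n * u (n + 1))) ≤
      ∑ n ∈ Finset.range N, (p n * u n + r n * u (n + 1)) := by
  have hT : ∑ n ∈ Finset.range N, (u n * η n / ξ n - u (n + 1) * η (n + 1) / ξ (n + 1)) = 0 := by
    rw [Finset.sum_range_sub' (fun n => u n * η n / ξ n) N]
    simp [hu0, huN]
  have hE : ∑ n ∈ Finset.range N, (p n * u n + r n * u (n + 1)) =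
      ∑ n ∈ Finset.range N, (A n * (ξ (n + 1) / ξ n) * u n + B n * (ξ n / ξ (n + 1)) * u (n + 1))
      + ∑ n ∈ Finset.range N, (u n * η n / ξ n - u (n + 1) * η (n + 1) / ξ (n + 1)) := by
    rw [← Finset.sum_add_distrib]
    refine Finset.sum_congr rfl fun n _ => ?_
    have e1 : p n = (A n * ξ (n + 1) + η n) / ξ n := by
      rw [eq_div_iff (hξ n).ne']; linarith [h1 n]
    have e2 : r n = (B n * ξ n - η (n + 1)) / ξ (n + 1) := by
      rw [eq_div_iff (hξ (n + 1)).ne']; linarith [h2 n]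
    rw [e1, e2]
    ring
  rw [hE, hT, add_zero]
  refine Finset.sum_le_sum fun n hn => ?_
  have hx := (hξ n)
  have hx' := (hξ (n + 1))
  have hAn := hA n hn
  have hBn := hB n hn
  have hun := hu n
  have hun' := hu (n + 1)
  have h := amgm (x := A n * (ξ (n + 1) / ξ n) * u n) (y := B n * (ξ n / ξ (n + 1)) * u (n + 1))
    (by positivity) (by positivity)
  have e : A n * (ξ (n + 1) / ξ n) * u n * (B n * (ξ n / ξ (n + 1)) * u (n + 1)) =
      A n * B n * (u n * u (n + 1)) := by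
    field_simp
  rwa [e] at h

/-- divided difference in the first variable, the second variable moves too -/
theorem tendsto_dd {Y P : ℝ → ℝ → ℝ} {s t : ℝ}
    (hd : ∀ᶠ p : ℝ × ℝ in 𝓝 (s, t), HasDerivAt (fun z => Y z p.2) (P p.1 p.2) p.1)
    (hc : ContinuousAt (fun p : ℝ × ℝ => P p.1 p.2) (s, t)) {l : Filter ℝ} {f g : ℝ → ℝ}
    (hf : Tendsto f l (𝓝[>] s)) (hg : Tendsto g l (𝓝 t)) :
    Tendsto (fun z => (Y (f z) (g z) - Y s (g z)) / (f z - s)) l (𝓝 (P s t)) := by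
  rw [Metric.tendsto_nhds]
  intro ε hε
  have h1 : ∀ᶠ p : ℝ × ℝ in 𝓝 (s, t), dist (P p.1 p.2) (P s t) < ε := by
    have := (Metric.tendsto_nhds.mp hc) ε hε
    exact this
  have h2 := hd.and h1
  obtain ⟨δ, hδ, hb⟩ := Metric.eventually_nhds_iff.mp h2
  have h3 : ∀ᶠ z in l, f z ∈ Ioo s (s + δ) := by
    have : Ioo s (s + δ) ∈ 𝓝[>] s := Ioo_mem_nhdsGT (by linarith)
    exact hf this
  have h4 : ∀ᶠ z in l, dist (g z) t < δ := (Metric.tendsto_nhds.mp hg) δ hδ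
  filter_upwards [h3, h4] with z hz hgz
  have hball : ∀ c, s ≤ c → c ≤ f z → dist (c, g z) (s, t) < δ := by
    intro c hc1 hc2
    rw [Prod.dist_eq, max_lt_iff]
    refine ⟨?_, hgz⟩
    simp only [Real.dist_eq]
    rw [abs_lt]
    constructor <;> linarith [hz.2]
  obtain ⟨c, hc1, hc2⟩ := exists_hasDerivAt_eq_slope (fun w => Y w (g z)) (fun w => P w (g z))
    hz.1 (fun w hw => ((hb (hball w hw.1 hw.2)).1).continuousAt.continuousWithinAt)
    (fun w hw => (hb (hball w hw.1.le hw.2.le)).1)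
  have h5 := (hb (hball c hc1.1.le hc1.2.le)).2
  simp only at hc2 h5
  rw [← hc2]
  exact h5

section
variable {T : ℝ} {Y a P : ℝ → ℝ → ℝ}

theorem ev_deriv (H : HopfData T Y a P) {s t : ℝ} (h0 : 0 < |t - s|) (h1 : |t - s| < T) :
    ∀ᶠ p : ℝ × ℝ in 𝓝 (s, t), HasDerivAt (fun z => Y z p.2) (P p.1 p.2) p.1 := by
  have hcont : Continuous (fun p : ℝ × ℝ => |p.2 - p.1|) := by fun_prop
  have hopen : IsOpen {p : ℝ × ℝ | 0 < |p.2 - p.1| ∧ |p.2 - p.1| < T} :=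
    (isOpen_lt continuous_const hcont).inter (isOpen_lt hcont continuous_const)
  filter_upwards [hopen.mem_nhds (show (s, t) ∈ _ from ⟨h0, h1⟩)] with p hp
  exact H.dY1 p.1 p.2 hp.1 hp.2

theorem orbit_lim (H : HopfData T Y a P) {τ : ℝ → ℝ} (h : Leaf T τ)
    (hi : ∀ u, Y (τ u) (τ (τ u)) = - Y (τ u) u) (x : ℝ) (N : ℕ) (u : ℕ → ℝ)
    (hu : ∀ n, 0 ≤ u n) (hu0 : u 0 = 0) (huN : u N = 0) :
    ∑ n ∈ Finset.range N, 2 * Real.sqrt (a (τ^[n] x) (τ^[n + 1] x) * a (τ^[n + 1] x) (τ^[n] x) *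
        (u n * u (n + 1))) ≤
      ∑ n ∈ Finset.range N, (P (τ^[n] x) (τ^[n + 1] x) * u n +
        P (τ^[n + 1] x) (τ^[n] x) * u (n + 1)) := by
  have hgap : ∀ n, τ^[n] x < τ^[n + 1] x ∧ τ^[n + 1] x < τ^[n] x + T := by
    intro n
    rw [Function.iterate_succ_apply']
    exact ⟨h.above _, h.below _⟩
  have hab : ∀ n, 0 < |τ^[n + 1] x - τ^[n] x| ∧ |τ^[n + 1] x - τ^[n] x| < T := by
    intro n
    have h1 := (hgap n).1
    have h2 := (hgap n).2
    rw [abs_of_pos (by linarith)]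
    constructor <;> linarith
  have hab' : ∀ n, 0 < |τ^[n] x - τ^[n + 1] x| ∧ |τ^[n] x - τ^[n + 1] x| < T := by
    intro n
    rw [abs_sub_comm]
    exact hab n
  have hT : ∀ n, Tendsto (fun z => τ^[n] z) (𝓝[>] x) (𝓝 (τ^[n] x)) := fun n =>
    ((iter_cont h n).tendsto x).mono_left nhdsWithin_le_nhds
  have hTg : ∀ n, Tendsto (fun z => τ^[n] z) (𝓝[>] x) (𝓝[>] (τ^[n] x)) := by
    intro n
    refine tendsto_nhdsWithin_iff.mpr ⟨hT n, ?_⟩
    filter_upwards [self_mem_nhdsWithin] with z hz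
    exact iter_mono h n hz
  have hTn : ∀ n, Tendsto (fun z => τ^[n] z) (𝓝[>] x) (𝓝[≠] (τ^[n] x)) := by
    intro n
    refine (hTg n).mono_right (nhdsWithin_mono _ ?_)
    intro y hy
    exact ne_of_gt hy
  set At : ℕ → ℝ → ℝ := fun n z => - ((Y (τ^[n] x) (τ^[n + 1] z) - Y (τ^[n] x) (τ^[n + 1] x)) /
    (τ^[n + 1] z - τ^[n + 1] x)) with hAt
  set Bt : ℕ → ℝ → ℝ := fun n z => - ((Y (τ^[n + 1] x) (τ^[n] z) - Y (τ^[n + 1] x) (τ^[n] x)) /
    (τ^[n] z - τ^[n] x)) with hBt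
  set Pt : ℕ → ℝ → ℝ := fun n z => (Y (τ^[n] z) (τ^[n + 1] z) - Y (τ^[n] x) (τ^[n + 1] z)) /
    (τ^[n] z - τ^[n] x) with hPt
  set Rt : ℕ → ℝ → ℝ := fun n z => (Y (τ^[n + 1] z) (τ^[n] z) - Y (τ^[n + 1] x) (τ^[n] z)) /
    (τ^[n + 1] z - τ^[n + 1] x) with hRt
  have tA : ∀ n, Tendsto (At n) (𝓝[>] x) (𝓝 (a (τ^[n] x) (τ^[n + 1] x))) := by
    intro n
    have h1 := (hasDerivAt_iff_tendsto_slope.mp
      (H.dY2 (τ^[n] x) (τ^[n + 1] x) (hab n).1 (hab n).2)).comp (hTn (n + 1))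
    have h2 := h1.neg
    rw [neg_neg] at h2
    refine h2.congr fun z => ?_
    simp only [Function.comp, slope_def_field, hAt]
  have tB : ∀ n, Tendsto (Bt n) (𝓝[>] x) (𝓝 (a (τ^[n + 1] x) (τ^[n] x))) := by
    intro n
    have h1 := (hasDerivAt_iff_tendsto_slope.mp
      (H.dY2 (τ^[n + 1] x) (τ^[n] x) (hab' n).1 (hab' n).2)).comp (hTn n)
    have h2 := h1.neg
    rw [neg_neg] at h2
    refine h2.congr fun z => ?_
    simp only [Function.comp, slope_def_field, hBt]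
  have tP : ∀ n, Tendsto (Pt n) (𝓝[>] x) (𝓝 (P (τ^[n] x) (τ^[n + 1] x))) := by
    intro n
    exact tendsto_dd (ev_deriv H (hab n).1 (hab n).2)
      (H.contP (τ^[n] x) (τ^[n + 1] x) (hab n).1 (hab n).2) (hTg n) (hT (n + 1))
  have tR : ∀ n, Tendsto (Rt n) (𝓝[>] x) (𝓝 (P (τ^[n + 1] x) (τ^[n] x))) := by
    intro n
    exact tendsto_dd (ev_deriv H (hab' n).1 (hab' n).2)
      (H.contP (τ^[n + 1] x) (τ^[n] x) (hab' n).1 (hab' n).2) (hTg (n + 1)) (hT n)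
  have ev : ∀ᶠ z in 𝓝[>] x, ∀ n ∈ Finset.range N, 0 ≤ At n z ∧ 0 ≤ Bt n z := by
    rw [Filter.eventually_all_finset]
    intro n _
    have h1 : ∀ᶠ z in 𝓝[>] x, 0 < At n z :=
      (tA n).eventually (lt_mem_nhds (H.apos _ _ (hab n).1 (hab n).2))
    have h2 : ∀ᶠ z in 𝓝[>] x, 0 < Bt n z :=
      (tB n).eventually (lt_mem_nhds (H.apos _ _ (hab' n).1 (hab' n).2))
    filter_upwards [h1, h2] with z h3 h4
    exact ⟨h3.le, h4.le⟩
  refine le_of_tendsto_of_tendsto (b := 𝓝[>] x)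
    (f := fun z => ∑ n ∈ Finset.range N, 2 * Real.sqrt (At n z * Bt n z * (u n * u (n + 1))))
    (g := fun z => ∑ n ∈ Finset.range N, (Pt n z * u n + Rt n z * u (n + 1))) ?_ ?_ ?_
  · refine tendsto_finsetSum _ fun n _ => Tendsto.const_mul _ ?_
    exact (Real.continuous_sqrt.tendsto _).comp (((tA n).mul (tB n)).mul_const _)
  · refine tendsto_finsetSum _ fun n _ => ?_
    exact ((tP n).mul_const _).add ((tR n).mul_const _)
  · filter_upwards [self_mem_nhdsWithin, ev] with z hz hev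
    have hξ : ∀ n, 0 < τ^[n] z - τ^[n] x := fun n => sub_pos.mpr (iter_mono h n hz)
    refine tele N (fun n => Pt n z) (fun n => Rt n z) (fun n => At n z) (fun n => Bt n z)
      (fun n => τ^[n] z - τ^[n] x)
      (fun n => Y (τ^[n] z) (τ^[n + 1] z) - Y (τ^[n] x) (τ^[n + 1] x)) u hξ
      (fun n hn => (hev n hn).1) (fun n hn => (hev n hn).2) hu ?_ ?_ hu0 huN
    · intro n
      have e1 := (hξ n).ne'
      have e2 := (hξ (n + 1)).ne'
      simp only [hPt, hAt]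
      rw [div_mul_cancel₀ _ e1, neg_mul, div_mul_cancel₀ _ e2]
      ring
    · intro n
      have e1 := (hξ n).ne'
      have e2 := (hξ (n + 1)).ne'
      simp only [hRt, hBt]
      rw [div_mul_cancel₀ _ e2, neg_mul, div_mul_cancel₀ _ e1]
      have h1 := hi (τ^[n] z)
      have h2 := hi (τ^[n] x)
      rw [← Function.iterate_succ_apply' τ n z, ← Function.iterate_succ_apply' τ (n + 1) z] at h1
      rw [← Function.iterate_succ_apply' τ n x, ← Function.iterate_succ_apply' τ (n + 1) x] at h2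
      have e3 : n + 1 + 1 = n.succ.succ := rfl
      rw [h1, h2]
      ring

end

end Pool.Agent.TH44.PGH
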